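import Pool.Agent.W853.DQ.DPathA

/-! DQ-DPATH: paths in the annulus group, after a Dehn twist. -/

set_option autoImplicit false

open scoped ContDiff
open Set Filter Topology

namespace Pool.Agent.W853.DQ

open Pool.Agent.W133.DQ

theorem t_dpath (hP : S_PATH) (hT : S_TRV) (hR : S_ROT) (hU : S_UT) (hG : S_GERM)
    (hA : S_ANG1) : S_DPATH := by
  intro f hf
  have hfNP := hf
  obtain ⟨hfDC, εf, hεf, hfid⟩ := hf
  have hpi := Real.pi_pos
  obtain ⟨F, hFc, F0, F1⟩ := hP f hfDC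
  obtain ⟨⟨Fs, Fi, RF, hRF⟩, Fl, Fr⟩ := id hFc
  -- step 1: fix the origin
  set v : ℝ → P2 := fun t => F t 0 with hv
  have hvs : ContDiff ℝ ∞ v := Fs.comp (contDiff_id.prodMk contDiff_const)
  have hv0 : v 0 = 0 := by simp [hv, F0]
  have hv1 : v 1 = 0 := by
    simp only [hv, F1]
    exact hfid 0 (by simpa using hεf)
  have hvl : ∀ t, t ≤ 0 → v t = v 0 := fun t ht => by simp only [hv]; rw [Fl t ht]
  have hvr : ∀ t, 1 ≤ t → v t = v 1 := fun t ht => by simp only [hv]; rw [Fr t ht]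
  have hvb : ∀ t, ‖v t‖ ≤ max RF 0 + 1 := by
    intro t
    by_contra h
    have h := not_le.1 h
    have h1 : RF < ‖v t‖ := lt_of_le_of_lt (le_trans (le_max_left _ _) (by linarith)) h
    have h2 : F t (F t 0) = F t 0 := hRF t _ h1
    have h3 : F t 0 = 0 := (F t).injective h2
    have h4 : v t = 0 := h3
    rw [h4, norm_zero] at h
    have := le_max_right RF 0
    linarith
  obtain ⟨P, Ps, Pinv, P0, Ptr, RP, hRP⟩ := hT (max RF 0 + 1)
    (by have := le_max_right RF 0; linarith)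
  have hPc : CPath (fun t => P (v t)) := cp_fam P Ps Pinv RP hRP v hvs hvl hvr
  set G1 : ℝ → Equiv.Perm P2 := fun t => (P (v t))⁻¹ * F t with hG1
  have cG1 : CPath G1 := cp_mul (cp_inv hPc) hFc
  have G1z : ∀ t, G1 t 0 = 0 := by
    intro t
    simp only [hG1, Equiv.Perm.mul_apply]
    rw [Equiv.Perm.inv_eq_iff_eq, Ptr (v t) 0 (hvb t) (by simp), zero_add]
  have G10 : G1 0 = 1 := by
    simp only [hG1]
    rw [hv0, P0, F0, inv_one, one_mul]
  have G11 : G1 1 = f := by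
    simp only [hG1]
    rw [hv1, P0, F1, inv_one, one_mul]
  -- step 2: the derivative at the origin
  have hslice : ∀ t, ContDiff ℝ ∞ (fun p : P2 => G1 t p) := slice cG1.1.1
  have hslicei : ∀ t, ContDiff ℝ ∞ (fun p : P2 => (G1 t)⁻¹ p) := fun t =>
    slice (F := fun t => (G1 t)⁻¹) cG1.1.2.1 t
  have hAs : ContDiff ℝ ∞ (fun t => D0 (G1 t)) := D0_smooth cG1.1.1
  set a : ℝ → ℝ := fun t => (D0 (G1 t) (1, 0)).1 with ha
  set b : ℝ → ℝ := fun t => (D0 (G1 t) (1, 0)).2 with hb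
  set c : ℝ → ℝ := fun t => (D0 (G1 t) (0, 1)).1 with hc
  set d : ℝ → ℝ := fun t => (D0 (G1 t) (0, 1)).2 with hd
  have has : ContDiff ℝ ∞ a := contDiff_fst.comp (hAs.clm_apply contDiff_const)
  have hbs : ContDiff ℝ ∞ b := contDiff_snd.comp (hAs.clm_apply contDiff_const)
  have hcs : ContDiff ℝ ∞ c := contDiff_fst.comp (hAs.clm_apply contDiff_const)
  have hds : ContDiff ℝ ∞ d := contDiff_snd.comp (hAs.clm_apply contDiff_const)
  have hMt : ∀ t, D0 (G1 t) = Mt (a t) (b t) (c t) (d t) := fun t => eq_Mt _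
  have hid : ∀ t, D0 (G1 t) = ContinuousLinearMap.id ℝ P2 → a t = 1 ∧ b t = 0 ∧ c t = 0 ∧ d t = 1 := by
    intro t ht
    have := hMt t
    rw [ht, ← Mt_id] at this
    obtain ⟨e1, e2, e3, e4⟩ := Mt_inj this
    exact ⟨e1.symm, e2.symm, e3.symm, e4.symm⟩
  have hid0 := hid 0 (by rw [G10, D0_one])
  have hid1 := hid 1 (by rw [G11]; exact D0_near hεf hfid)
  have hdet : ∀ t, a t * d t - b t * c t ≠ 0 := by
    intro t
    have h1 : (D0 ((G1 t)⁻¹)).comp (D0 (G1 t)) = ContinuousLinearMap.id ℝ P2 := by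
      rw [← D0_mul (hslicei t) (hslice t) (G1z t), inv_mul_cancel, D0_one]
    exact det_ne h1
  have hdetc : Continuous (fun t => a t * d t - b t * c t) := by
    have h1 := has.continuous
    have h2 := hbs.continuous
    have h3 := hcs.continuous
    have h4 := hds.continuous
    fun_prop
  have hdetp : ∀ t, 0 < a t * d t - b t * c t := by
    intro t
    by_contra h
    have h0 : a 0 * d 0 - b 0 * c 0 = 1 := by
      rw [hid0.1, hid0.2.1, hid0.2.2.1, hid0.2.2.2]; norm_num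
    obtain ⟨t', ht'⟩ := mem_range_of_exists_le_of_exists_ge hdetc ⟨t, not_lt.1 h⟩
      ⟨0, by rw [h0]; norm_num⟩
    exact hdet t' ht'
  have hab : ∀ t, a t ^ 2 + b t ^ 2 ≠ 0 := by
    intro t h
    have h1 : a t = 0 := by nlinarith [sq_nonneg (a t), sq_nonneg (b t)]
    have h2 : b t = 0 := by nlinarith [sq_nonneg (a t), sq_nonneg (b t)]
    exact hdet t (by rw [h1, h2]; ring)
  have habp : ∀ t, 0 < a t ^ 2 + b t ^ 2 := fun t => lt_of_le_of_ne (by positivity) (hab t).symm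
  have hal : ∀ t, t ≤ 0 → a t = a 0 ∧ b t = b 0 ∧ c t = c 0 ∧ d t = d 0 := by
    intro t ht
    simp only [ha, hb, hc, hd]
    rw [cG1.2.1 t ht]
    exact ⟨rfl, rfl, rfl, rfl⟩
  have har : ∀ t, 1 ≤ t → a t = a 1 ∧ b t = b 1 ∧ c t = c 1 ∧ d t = d 1 := by
    intro t ht
    simp only [ha, hb, hc, hd]
    rw [cG1.2.2 t ht]
    exact ⟨rfl, rfl, rfl, rfl⟩
  obtain ⟨θ, hθs, hθ0, hθa, hθb, hθl, hθr⟩ := hA a b has hbs hab hid0.1 hid0.2.1
    (fun t ht => ⟨(hal t ht).1, (hal t ht).2.1⟩) (fun t ht => ⟨(har t ht).1, (har t ht).2.1⟩)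
  set ρ : ℝ → ℝ := fun t => Real.sqrt (a t ^ 2 + b t ^ 2) with hρ
  have hρp : ∀ t, 0 < ρ t := fun t => Real.sqrt_pos.2 (habp t)
  have hθa' : ∀ t, a t = ρ t * Real.cos (θ t) := hθa
  have hθb' : ∀ t, b t = ρ t * Real.sin (θ t) := hθb
  have hρ1 : ρ 1 = 1 := by
    simp only [hρ]
    rw [hid1.1, hid1.2.1]
    norm_num
  have hρ0 : ρ 0 = 1 := by
    simp only [hρ]
    rw [hid0.1, hid0.2.1]
    norm_num
  have hcos1 : Real.cos (θ 1) = 1 := by
    have := hθa' 1
    rw [hid1.1, hρ1, one_mul] at this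
    exact this.symm
  have hsin1 : Real.sin (θ 1) = 0 := by
    have := hθb' 1
    rw [hid1.2.1, hρ1, one_mul] at this
    exact this.symm
  obtain ⟨n, hn⟩ := (Real.cos_eq_one_iff _).1 hcos1
  obtain ⟨Rs, R0, Radd, -, RNP, Rsupp, Rlin⟩ := hR
  have Rinv : ∀ s, (rot s)⁻¹ = rot (-s) := by
    intro s
    rw [inv_eq_iff_mul_eq_one, ← Radd, add_neg_cancel, R0]
  have hRc : CPath (fun t => rot (-θ t)) := by
    refine cp_fam rot Rs ?_ 2 (fun w p hp => Rsupp w p hp.le) (fun t => -θ t) hθs.neg ?_ ?_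
    · have : (fun q : ℝ × P2 => (rot q.1)⁻¹ q.2) =
          (fun q : ℝ × P2 => rot q.1 q.2) ∘ (fun q : ℝ × P2 => (-q.1, q.2)) := by
        funext q
        simp only [Function.comp_apply]
        rw [Rinv]
      rw [this]
      exact Rs.comp (contDiff_fst.neg.prodMk contDiff_snd)
    · intro t ht
      rw [hθl t ht, hθ0]
    · intro t ht
      rw [hθr t ht]
  set G2 : ℝ → Equiv.Perm P2 := fun t => rot (-θ t) * G1 t with hG2
  have cG2 : CPath G2 := cp_mul hRc cG1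
  have rotz : ∀ s, rot s 0 = 0 := by
    intro s
    rw [Rlin s 0 (by simp)]
    simp
  have G2z : ∀ t, G2 t 0 = 0 := by
    intro t
    simp only [hG2, Equiv.Perm.mul_apply]
    rw [G1z, rotz]
  have G20 : G2 0 = 1 := by
    simp only [hG2]
    rw [hθ0, neg_zero, R0, G10, one_mul]
  have G21 : G2 1 = rot (-θ 1) * f := by
    simp only [hG2]
    rw [G11]
  set β : ℝ → ℝ := fun t => Real.cos (θ t) * c t + Real.sin (θ t) * d t with hβ
  set γ : ℝ → ℝ := fun t => -Real.sin (θ t) * c t + Real.cos (θ t) * d t with hγ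
  have hργ : ∀ t, ρ t * γ t = a t * d t - b t * c t := by
    intro t
    rw [hθa' t, hθb' t]
    simp only [hγ]
    ring
  have hγp : ∀ t, 0 < γ t := by
    intro t
    have h1 := hdetp t
    rw [← hργ t] at h1
    exact (mul_pos_iff_of_pos_left (hρp t)).1 h1
  have hDG2 : ∀ t, D0 (G2 t) = Mt (ρ t) 0 (β t) (γ t) := by
    intro t
    simp only [hG2]
    rw [D0_mul (slice Rs (-θ t)) (hslice t) (G1z t), hMt t,
      D0_of_eq (f := rot (-θ t)) (a := Real.cos (θ t)) (b := -Real.sin (θ t))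
        (c := Real.sin (θ t)) (d := Real.cos (θ t)) (ε := 1 / 2) (by norm_num), Mt_comp]
    · have e1 : Real.cos (θ t) * a t + Real.sin (θ t) * b t = ρ t := by
        rw [hθa' t, hθb' t]
        linear_combination (ρ t) * Real.sin_sq_add_cos_sq (θ t)
      have e2 : -Real.sin (θ t) * a t + Real.cos (θ t) * b t = 0 := by
        rw [hθa' t, hθb' t]
        ring
      rw [e1, e2]
    · intro p hp
      rw [Rlin (-θ t) p hp, Real.cos_neg, Real.sin_neg]
      ext <;> simp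
  have hρs : ContDiff ℝ ∞ ρ := by
    simp only [hρ]
    exact ((has.pow 2).add (hbs.pow 2)).sqrt hab
  have hcoss : ContDiff ℝ ∞ (fun t => Real.cos (θ t)) := Real.contDiff_cos.comp hθs
  have hsins : ContDiff ℝ ∞ (fun t => Real.sin (θ t)) := Real.contDiff_sin.comp hθs
  have hβs : ContDiff ℝ ∞ β := (hcoss.mul hcs).add (hsins.mul hds)
  have hγs : ContDiff ℝ ∞ γ := (hsins.neg.mul hcs).add (hcoss.mul hds)
  -- step 3: upper triangular correction
  set w : ℝ → ℝ × ℝ × ℝ := fun t => (Real.log (ρ t), Real.log (γ t), β t / ρ t) with hw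
  have hws : ContDiff ℝ ∞ w :=
    (hρs.log fun t => (hρp t).ne').prodMk ((hγs.log fun t => (hγp t).ne').prodMk
      (hβs.div hρs fun t => (hρp t).ne'))
  have hwl : ∀ t, t ≤ 0 → w t = w 0 := by
    intro t ht
    obtain ⟨e1, e2, e3, e4⟩ := hal t ht
    simp only [hw, hρ, hβ, hγ]
    rw [e1, e2, e3, e4, hθl t ht, hθ0]
  have hwr : ∀ t, 1 ≤ t → w t = w 1 := by
    intro t ht
    obtain ⟨e1, e2, e3, e4⟩ := har t ht
    simp only [hw, hρ, hβ, hγ]
    rw [e1, e2, e3, e4, hθr t ht]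
  have hw0 : w 0 = 0 := by
    simp only [hw, hβ, hγ]
    rw [hρ0, hid0.2.2.1, hid0.2.2.2, hθ0]
    simp
  have hw1 : w 1 = 0 := by
    simp only [hw, hβ, hγ]
    rw [hρ1, hid1.2.2.1, hid1.2.2.2, hcos1, hsin1]
    simp
  obtain ⟨B0, hB0⟩ := (isCompact_Icc (a := (0 : ℝ)) (b := 1)).exists_bound_of_continuousOn
    hws.continuous.continuousOn
  have hwb : ∀ t, ‖w t‖ ≤ max B0 0 + 1 := by
    intro t
    have hb0 := le_max_left B0 0
    rcases le_total t 0 with h | h
    · rw [hwl t h]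
      linarith [hB0 0 ⟨le_rfl, zero_le_one⟩]
    rcases le_total 1 t with h' | h'
    · rw [hwr t h']
      linarith [hB0 1 ⟨zero_le_one, le_rfl⟩]
    · linarith [hB0 t ⟨h, h'⟩]
  obtain ⟨l, ls, li, l0, lz, ⟨εl, hεl, hll⟩, Rl, hRl⟩ := hU (max B0 0 + 1)
    (by have := le_max_right B0 0; linarith)
  have hlc : CPath (fun t => l (w t)) := cp_fam l ls li Rl hRl w hws hwl hwr
  set G3 : ℝ → Equiv.Perm P2 := fun t => (l (w t))⁻¹ * G2 t with hG3
  have cG3 : CPath G3 := cp_mul (cp_inv hlc) cG2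
  have G3z : ∀ t, G3 t 0 = 0 := by
    intro t
    simp only [hG3, Equiv.Perm.mul_apply]
    rw [G2z, Equiv.Perm.inv_eq_iff_eq, lz]
  have G30 : G3 0 = 1 := by
    simp only [hG3]
    rw [hw0, l0, G20, inv_one, one_mul]
  have G31 : G3 1 = rot (-θ 1) * f := by
    simp only [hG3]
    rw [hw1, l0, G21, inv_one, one_mul]
  have hDl : ∀ t, D0 (l (w t)) = Mt (ρ t) 0 (β t) (γ t) := by
    intro t
    refine D0_of_eq hεl fun p hp => ?_
    rw [hll (w t) p (hwb t) hp]
    simp only [hw]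
    rw [Real.exp_log (hρp t), Real.exp_log (hγp t)]
    have := (hρp t).ne'
    ext
    · simp only
      field_simp
    · simp only
      ring
  have hDG3 : ∀ t, D0 (G3 t) = ContinuousLinearMap.id ℝ P2 := by
    intro t
    have h1 : l (w t) * G3 t = G2 t := by simp only [hG3]; rw [mul_inv_cancel_left]
    have h2 := D0_mul (f := l (w t)) (g := G3 t) (slice (F := fun t => l (w t)) hlc.1.1 t)
      (slice cG3.1.1 t) (G3z t)
    rw [h1, hDG2 t, hDl t, eq_Mt (D0 (G3 t)), Mt_comp] at h2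
    obtain ⟨e1, e2, e3, e4⟩ := Mt_inj h2
    rw [eq_Mt (D0 (G3 t)), ← Mt_id]
    set x := (D0 (G3 t) (1, 0)).1
    set y := (D0 (G3 t) (1, 0)).2
    set z := (D0 (G3 t) (0, 1)).1
    set u := (D0 (G3 t) (0, 1)).2
    have hρn := (hρp t).ne'
    have hγn := (hγp t).ne'
    have k1 : y = 0 := by
      have : γ t * y = 0 := by linarith
      exact (mul_eq_zero.1 this).resolve_left hγn
    have k2 : u = 1 := by
      have : γ t * u = γ t * 1 := by linarith
      exact mul_left_cancel₀ hγn this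
    have k3 : x = 1 := by
      have : ρ t * x = ρ t * 1 := by rw [k1] at e1; linarith
      exact mul_left_cancel₀ hρn this
    have k4 : z = 0 := by
      have : ρ t * z = 0 := by rw [k2] at e3; linarith
      exact (mul_eq_zero.1 this).resolve_left hρn
    rw [k1, k2, k3, k4]
  -- step 4: germs
  have hk : rot (-θ 1) = rot (2 * Real.pi * ((-n : ℤ) : ℝ)) := by
    congr 1
    rw [← hn]
    push_cast
    ring
  have hgNP : rot (2 * Real.pi * ((-n : ℤ) : ℝ)) * f ∈ NP := NP.mul_mem (RNP (-n)) hfNP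
  obtain ⟨-, ε1, hε1, hg1⟩ := hgNP
  obtain ⟨ε, M, hε, hεε, Ms, Mi, Mh, Msupp, M1, Ml, Mr⟩ := hG (fun q => (G3 q.1)⁻¹ q.2)
    cG3.1.2.1 (fun t => by simp only; rw [Equiv.Perm.inv_eq_iff_eq, G3z])
    (fun t => by
      have h1 := D0_mul (f := (G3 t)⁻¹) (g := G3 t)
        (slice (F := fun t => (G3 t)⁻¹) cG3.1.2.1 t) (slice cG3.1.1 t) (G3z t)
      rw [inv_mul_cancel, D0_one, hDG3 t] at h1
      have h2 : D0 (G3 t)⁻¹ = ContinuousLinearMap.id ℝ P2 := by
        rw [h1]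
        rfl
      exact h2)
    (fun t p ht => by simp only; rw [cG3.2.1 t ht])
    (fun t p ht => by simp only; rw [cG3.2.2 t ht]) (ε1 / 2) (by positivity)
  have cM : CPath M := ⟨⟨Ms, Mi, ε1 / 2, fun t p hp => Msupp t p hp.le⟩, Ml, Mr⟩
  refine ⟨-n, fun t => G3 t * M t, cp_mul cG3 cM, ?_, ?_, ε, hε, ?_⟩
  · simp only
    rw [G30, M1 0 (fun p _ => by simp only; rw [G30]; rfl), one_mul]
  · simp only
    rw [M1 1 (fun p hp => by
      simp only
      rw [Equiv.Perm.inv_eq_iff_eq, G31, hk]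
      exact (hg1 p (by linarith)).symm), mul_one, G31, hk]
  · intro t p hp
    simp only
    rw [Equiv.Perm.mul_apply, Mh t p hp.le]
    exact (G3 t).apply_symm_apply p

end Pool.Agent.W853.DQ
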