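import Pool.Agent.W853.DQ.JBC

/-! DQ-JB: transfer of `BB` to the disk. -/

set_option autoImplicit false

open scoped ContDiff
open Set Filter Topology

namespace Pool.Agent.W853.DQ

open Pool.Agent.W133.DQ

theorem nq_pii (p : HH) : nq (pii p) = Real.exp (2 * p.1.2) := sq2_Pi p.1

theorem nq_sq2 (q : DD) : nq q = sq2 q.1 := rfl

/-- continuity argument: a vertical path of integer translations -/
theorem tz_zero {H : P2 → P2} (hH : Continuous H) {l : ℝ}
    (h : ∀ p : P2, p.2 ≤ 0 → ∃ n : ℤ, H p = tz n p) (hl : ∀ p : P2, p.2 ≤ l → H p = p)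
    (p : P2) (hp : p.2 ≤ 0) : H p = p := by
  set a : ℝ := min (l - 1) p.2 with ha
  have hap : a ≤ p.2 := min_le_right _ _
  have hal : a ≤ l := (min_le_left _ _).trans (by linarith)
  set d : ℝ → ℝ := fun t => (H (p.1, t)).1 - p.1 with hd
  have hdc : ContinuousOn d (Icc a p.2) := by
    have : Continuous (fun t : ℝ => ((p.1, t) : P2)) := by fun_prop
    exact ((continuous_fst.comp (hH.comp this)).sub continuous_const).continuousOn
  have hd0 : d a = 0 := by
    simp only [hd]
    rw [hl (p.1, a) hal]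
    simp
  have hint : ∀ t ∈ Icc a p.2, ∃ n : ℤ, d t = n := by
    intro t ht
    obtain ⟨n, hn⟩ := h (p.1, t) (ht.2.trans hp)
    refine ⟨n, ?_⟩
    simp only [hd]
    rw [hn]
    simp [tz]
  have l1 := stay_lt (v := 1 / 2) hdc (fun t ht h => by
    obtain ⟨n, hn⟩ := hint t ht
    rw [hn] at h
    have h2 : (2 * n : ℝ) = 1 := by linarith
    have h3 : (2 * n : ℤ) = 1 := by exact_mod_cast h2
    omega) (by rw [hd0]; norm_num) p.2 ⟨hap, le_rfl⟩
  have l2 := stay_gt (v := -(1 / 2)) hdc (fun t ht h => by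
    obtain ⟨n, hn⟩ := hint t ht
    rw [hn] at h
    have h2 : (2 * n : ℝ) = -1 := by linarith
    have h3 : (2 * n : ℤ) = -1 := by exact_mod_cast h2
    omega) (by rw [hd0]; norm_num) p.2 ⟨hap, le_rfl⟩
  obtain ⟨n, hn⟩ := h p hp
  have h4 : d p.2 = n := by
    simp only [hd]
    rw [hn]
    simp [tz]
  rw [h4] at l1 l2
  have h5 : n < 1 := by
    have : (n : ℝ) < 1 := by linarith
    exact_mod_cast this
  have h6 : -1 < n := by
    have : (-1 : ℝ) < n := by linarith
    exact_mod_cast this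
  have h7 : n = 0 := by omega
  rw [hn, h7]
  simp [tz]

theorem t_jb (hBD : S_BDRY) (hPE : S_PEXT) : S_JB := by
  classical
  -- membership in G1
  have hG1 : ∀ f (hf : f ∈ BB), JB f hf ∈ G1 := by
    intro f hf
    have hinv : (JB f hf)⁻¹ = JB f⁻¹ (BB.inv_mem hf) := by
      ext1 q
      rfl
    have hGG : JB f hf ∈ GG := by
      refine ⟨ext_J hf hPE, ?_, Jf_dO f⟩
      rw [hinv]
      exact ext_J (BB.inv_mem hf) hPE
    obtain ⟨-, -, -, -, l, hl⟩ := id hf
    refine ⟨hGG, Real.exp (2 * min l 0), Real.exp_pos _, fun q hq => ?_⟩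
    by_cases h : q = dO
    · rw [h]; exact Jf_dO f
    · have h1 := pii_secD h
      have h2 : (secD q).1.2 ≤ l := by
        rw [← h1, nq_pii, Real.exp_lt_exp] at hq
        have := min_le_left l 0
        linarith
      rw [← h1]
      change Jf f (pii (secD q)) = pii (secD q)
      rw [Jf_pii (BB_eq hf), hl _ h2]
  refine ⟨fun f => if hf : f ∈ BB then JB f hf else 1, ?_, ?_, ?_, ?_, ?_⟩
  · intro f hf
    simp only [dif_pos hf]
    exact hG1 f hf
  · intro f hf g hg
    simp only [dif_pos hf, dif_pos hg, dif_pos (BB.mul_mem hf hg)]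
    ext1 q
    exact Jf_comp (BB_eq hf) (BB_eq hg) q
  · intro f hf
    obtain ⟨hfB, k, ε, hε, hk⟩ := hf
    simp only [dif_pos hfB]
    refine ⟨(hG1 f hfB).1, 1 - Real.exp (-(2 * ε)), ?_, fun q hq => ?_⟩
    · have : Real.exp (-(2 * ε)) < 1 := by
        rw [Real.exp_lt_one_iff]
        linarith
      linarith
    · have hq' : Real.exp (-(2 * ε)) < nq q := by linarith
      have h : q ≠ dO := by
        rintro rfl
        have h1 : nq dO = 0 := by simp [nq, dO]
        rw [h1] at hq'
        exact absurd hq' (not_lt.2 (Real.exp_pos _).le)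
      have h1 := pii_secD h
      have h2 : -ε < (secD q).1.2 := by
        rw [← h1, nq_pii, Real.exp_lt_exp] at hq'
        linarith
      rw [← h1]
      change Jf f (pii (secD q)) = pii (secD q)
      rw [Jf_pii (BB_eq hfB)]
      have h3 : f (secD q) = hT k (secD q) := Subtype.ext (hk _ h2)
      rw [h3, pii_hT]
  · -- surjectivity
    intro g hg
    have hgi := G1.inv_mem hg
    have hlift : ∀ g ∈ G1, ∃ (F : P2 → P2) (l : ℝ), ContDiff ℝ ∞ F ∧
        (∀ p : HH, Pi0 (F p) = (g (pii p) : P2)) ∧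
        (∀ p : P2, F (p.1 + 1, p.2) = F p + (1, 0)) ∧ ∀ p : P2, p.2 ≤ l → F p = p := by
      intro g hg
      obtain ⟨⟨⟨G, hG, hGg, -⟩, -, hg0⟩, ε, hε, hid⟩ := hg
      obtain ⟨F, l, h1, h2, h3, h4⟩ := lift_G hG hε
        (fun q hq hq1 => by
          have e1 := hGg ⟨q, hq1⟩
          have e2 := hid ⟨q, hq1⟩ hq
          rw [e2] at e1
          exact e1.symm)
        (fun q hq0 hq1 hG0 => by
          have e1 := hGg ⟨q, hq1⟩
          have e2 : g ⟨q, hq1⟩ = dO := Subtype.ext (e1.trans hG0)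
          have e3 : (⟨q, hq1⟩ : DD) = dO := g.injective (e2.trans hg0.symm)
          exact hq0 (congrArg Subtype.val e3))
      refine ⟨F, l, h1, fun p => ?_, h3, h4⟩
      rw [h2 p.1 p.2, hGg]
      rfl
    obtain ⟨F, l, hF, hFg, hFe, hFl⟩ := hlift g hg
    obtain ⟨F', l', hF', hFg', hFe', hFl'⟩ := hlift g⁻¹ hgi
    have hneg : ∀ (g : Equiv.Perm DD) (F : P2 → P2), (∀ p : HH, Pi0 (F p) = (g (pii p) : P2)) →
        ∀ p : HH, (F p).2 ≤ 0 := by
      intro g F hFg p
      have h1 : sq2 (Pi0 (F p)) ≤ 1 := by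
        rw [hFg p]
        exact (g (pii p)).2
      rw [sq2_Pi, Real.exp_le_one_iff] at h1
      linarith
    set fo : HH → HH := fun p => ⟨F p, hneg g F hFg p⟩ with hfo
    set fi : HH → HH := fun p => ⟨F' p, hneg g⁻¹ F' hFg' p⟩ with hfi
    have hfo' : ∀ p, pii (fo p) = g (pii p) := fun p => Subtype.ext (hFg p)
    have hfi' : ∀ p, pii (fi p) = g⁻¹ (pii p) := fun p => Subtype.ext (hFg' p)
    have hmin : ∀ (p : P2), p.2 ≤ min l l' → p.2 ≤ l ∧ p.2 ≤ l' := fun p hp =>
      ⟨hp.trans (min_le_left _ _), hp.trans (min_le_right _ _)⟩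
    have hoi : ∀ p, fo (fi p) = p := by
      intro p
      apply Subtype.ext
      refine tz_zero (H := fun q => F (F' q)) (hF.continuous.comp hF'.continuous)
        (l := min l l') ?_ ?_ p.1 p.2
      · intro q hq
        have h1 : pii (fo (fi ⟨q, hq⟩)) = pii ⟨q, hq⟩ := by
          rw [hfo', hfi']
          exact g.apply_symm_apply _
        obtain ⟨n, hn⟩ := pii_eq h1
        exact ⟨n, congrArg Subtype.val hn⟩
      · intro q hq
        obtain ⟨q1, q2⟩ := hmin q hq
        rw [hFl' q q2, hFl q q1]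
    have hio : ∀ p, fi (fo p) = p := by
      intro p
      apply Subtype.ext
      refine tz_zero (H := fun q => F' (F q)) (hF'.continuous.comp hF.continuous)
        (l := min l l') ?_ ?_ p.1 p.2
      · intro q hq
        have h1 : pii (fi (fo ⟨q, hq⟩)) = pii ⟨q, hq⟩ := by
          rw [hfi', hfo']
          exact g.symm_apply_apply _
        obtain ⟨n, hn⟩ := pii_eq h1
        exact ⟨n, congrArg Subtype.val hn⟩
      · intro q hq
        obtain ⟨q1, q2⟩ := hmin q hq
        rw [hFl q q1, hFl' q q2]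
    set f : Equiv.Perm HH := ⟨fo, fi, hio, hoi⟩ with hf
    have hff : ∀ p, f p = fo p := fun _ => rfl
    have hfB : f ∈ BB := by
      refine ⟨⟨F, hF, fun _ => rfl⟩, ⟨F', hF', fun _ => rfl⟩, ?_, ?_, min l l', ?_⟩
      · intro p
        apply Subtype.ext
        change F (p.1.1 + 1, p.1.2) = ((F p.1).1 + 1, (F p.1).2)
        rw [hFe]
        ext <;> simp
      · intro p
        have h1 := hBD g hg.1 (pii p)
        rw [nq_pii, ← hfo', nq_pii, Real.exp_eq_one_iff, Real.exp_eq_one_iff] at h1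
        rw [hff]
        constructor
        · intro h
          have := h1.1 (by rw [h]; ring)
          linarith
        · intro h
          have := h1.2 (by rw [h]; ring)
          linarith
      · intro p hp
        apply Subtype.ext
        exact hFl p.1 (hp.trans (min_le_left _ _))
    refine ⟨f, hfB, ?_⟩
    simp only [dif_pos hfB]
    ext1 q
    by_cases h : q = dO
    · rw [h]
      change Jf f dO = g dO
      rw [Jf_dO, hg.1.2.2]
    · rw [← pii_secD h]
      change Jf f (pii (secD q)) = g (pii (secD q))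
      rw [Jf_pii (BB_eq hfB), hff, hfo']
  · intro f hf p
    simp only [dif_pos hf]
    exact Jf_pii (BB_eq hf) p

end Pool.Agent.W853.DQ
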