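import Pool.Agent.W133.DQ.StC

/-! Preparations for DQ-DPATH. -/

set_option autoImplicit false

open scoped ContDiff
open Set Filter Topology

namespace Pool.Agent.W853.DQ

open Pool.Agent.W133.DQ

theorem cp_mul {F G : ℝ → Equiv.Perm P2} (hF : CPath F) (hG : CPath G) :
    CPath (fun t => F t * G t) := by
  obtain ⟨⟨f1, f2, R, fR⟩, f3, f4⟩ := hF
  obtain ⟨⟨g1, g2, R', gR⟩, g3, g4⟩ := hG
  refine ⟨⟨?_, ?_, max R R', ?_⟩, ?_, ?_⟩
  · exact f1.comp (contDiff_fst.prodMk g1)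
  · have : (fun q : ℝ × P2 => (F q.1 * G q.1)⁻¹ q.2) =
        (fun q : ℝ × P2 => (G q.1)⁻¹ q.2) ∘ (fun q : ℝ × P2 => (q.1, (F q.1)⁻¹ q.2)) := by
      funext q; simp [mul_inv_rev]
    rw [this]
    exact g2.comp (contDiff_fst.prodMk f2)
  · intro t p hp
    rw [Equiv.Perm.mul_apply, gR t p (lt_of_le_of_lt (le_max_right _ _) hp),
      fR t p (lt_of_le_of_lt (le_max_left _ _) hp)]
  · intro t ht
    simp only
    rw [f3 t ht, g3 t ht]
  · intro t ht
    simp only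
    rw [f4 t ht, g4 t ht]

theorem cp_inv {F : ℝ → Equiv.Perm P2} (hF : CPath F) : CPath (fun t => (F t)⁻¹) := by
  obtain ⟨⟨f1, f2, R, fR⟩, f3, f4⟩ := hF
  refine ⟨⟨f2, by simpa using f1, R, ?_⟩, ?_, ?_⟩
  · intro t p hp
    rw [Equiv.Perm.inv_eq_iff_eq, fR t p hp]
  · intro t ht
    simp only
    rw [f3 t ht]
  · intro t ht
    simp only
    rw [f4 t ht]

theorem cp_fam {W : Type} [NormedAddCommGroup W] [NormedSpace ℝ W] (Q : W → Equiv.Perm P2)
    (h1 : ContDiff ℝ ∞ (fun q : W × P2 => Q q.1 q.2))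
    (h2 : ContDiff ℝ ∞ (fun q : W × P2 => (Q q.1)⁻¹ q.2))
    (R : ℝ) (hR : ∀ w p, R < ‖p‖ → Q w p = p) (w : ℝ → W) (hw : ContDiff ℝ ∞ w)
    (w0 : ∀ t, t ≤ 0 → w t = w 0) (w1 : ∀ t, 1 ≤ t → w t = w 1) :
    CPath (fun t => Q (w t)) := by
  refine ⟨⟨?_, ?_, R, fun t p hp => hR _ p hp⟩, ?_, ?_⟩
  · exact h1.comp ((hw.comp contDiff_fst).prodMk contDiff_snd)
  · exact h2.comp ((hw.comp contDiff_fst).prodMk contDiff_snd)
  · intro t ht
    simp only
    rw [w0 t ht]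
  · intro t ht
    simp only
    rw [w1 t ht]

/-- smoothness of a slice -/
theorem slice {F : ℝ → Equiv.Perm P2} (h : ContDiff ℝ ∞ (fun q : ℝ × P2 => F q.1 q.2)) (t : ℝ) :
    ContDiff ℝ ∞ (fun p : P2 => F t p) := by
  have : ContDiff ℝ ∞ (fun p : P2 => ((t, p) : ℝ × P2)) := contDiff_const.prodMk contDiff_id
  exact h.comp this

/-- derivative at the origin -/
noncomputable def D0 (f : Equiv.Perm P2) : P2 →L[ℝ] P2 := fderiv ℝ (fun p => f p) 0

theorem D0_one : D0 1 = ContinuousLinearMap.id ℝ P2 := by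
  unfold D0
  exact fderiv_id

theorem D0_mul {f g : Equiv.Perm P2} (hf : ContDiff ℝ ∞ (fun p => f p))
    (hg : ContDiff ℝ ∞ (fun p => g p)) (h0 : g 0 = 0) : D0 (f * g) = (D0 f).comp (D0 g) := by
  unfold D0
  have h1 : DifferentiableAt ℝ (fun p => f p) (g 0) := hf.differentiable (by simp) _
  have h2 : DifferentiableAt ℝ (fun p => g p) 0 := hg.differentiable (by simp) _
  have := fderiv_comp (𝕜 := ℝ) (0 : P2) h1 h2
  rw [h0] at this
  exact this

theorem D0_near {f : Equiv.Perm P2} {ε : ℝ} (hε : 0 < ε) (h : ∀ p, ‖p‖ < ε → f p = p) :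
    D0 f = ContinuousLinearMap.id ℝ P2 := by
  unfold D0
  have : (fun p => f p) =ᶠ[𝓝 0] id := by
    have h1 : ∀ᶠ p : P2 in 𝓝 0, ‖p‖ < ε := by
      have : Metric.ball (0 : P2) ε ∈ 𝓝 (0 : P2) := Metric.ball_mem_nhds _ hε
      filter_upwards [this] with p hp
      simpa using hp
    filter_upwards [h1] with p hp using h p hp
  rw [this.fderiv_eq]
  exact fderiv_id

/-- the linear map with columns `(a, b)` and `(c, d)` -/
noncomputable def Mt (a b c d : ℝ) : P2 →L[ℝ] P2 :=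
  (a • ContinuousLinearMap.fst ℝ ℝ ℝ + c • ContinuousLinearMap.snd ℝ ℝ ℝ).prod
    (b • ContinuousLinearMap.fst ℝ ℝ ℝ + d • ContinuousLinearMap.snd ℝ ℝ ℝ)

theorem Mt_apply (a b c d : ℝ) (p : P2) :
    Mt a b c d p = (a * p.1 + c * p.2, b * p.1 + d * p.2) := by
  simp [Mt]

theorem eq_Mt (A : P2 →L[ℝ] P2) :
    A = Mt (A (1, 0)).1 (A (1, 0)).2 (A (0, 1)).1 (A (0, 1)).2 := by
  refine ContinuousLinearMap.ext fun p => ?_
  rw [Mt_apply]
  have : p = p.1 • ((1, 0) : P2) + p.2 • ((0, 1) : P2) := by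
    ext <;> simp
  conv_lhs => rw [this]
  rw [map_add, map_smul, map_smul]
  ext <;> simp <;> ring

theorem Mt_comp (a b c d a' b' c' d' : ℝ) : (Mt a b c d).comp (Mt a' b' c' d') =
    Mt (a * a' + c * b') (b * a' + d * b') (a * c' + c * d') (b * c' + d * d') := by
  refine ContinuousLinearMap.ext fun p => ?_
  rw [ContinuousLinearMap.comp_apply, Mt_apply, Mt_apply, Mt_apply]
  ext <;> simp <;> ring

theorem Mt_id : Mt 1 0 0 1 = ContinuousLinearMap.id ℝ P2 := by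
  refine ContinuousLinearMap.ext fun p => ?_
  rw [Mt_apply]
  ext <;> simp

theorem Mt_inj {a b c d a' b' c' d' : ℝ} (h : Mt a b c d = Mt a' b' c' d') :
    a = a' ∧ b = b' ∧ c = c' ∧ d = d' := by
  have h1 := congrArg (fun A : P2 →L[ℝ] P2 => A (1, 0)) h
  have h2 := congrArg (fun A : P2 →L[ℝ] P2 => A (0, 1)) h
  simp only [Mt_apply] at h1 h2
  simp at h1 h2
  exact ⟨h1.1, h1.2, h2.1, h2.2⟩

/-- determinant of the derivative at the origin is nonzero -/
theorem det_ne {A B : P2 →L[ℝ] P2} (h : B.comp A = ContinuousLinearMap.id ℝ P2) :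
    (A (1, 0)).1 * (A (0, 1)).2 - (A (1, 0)).2 * (A (0, 1)).1 ≠ 0 := by
  rw [eq_Mt A, eq_Mt B, Mt_comp, ← Mt_id] at h
  obtain ⟨e1, e2, e3, e4⟩ := Mt_inj h
  intro hd
  set a := (A (1, 0)).1
  set b := (A (1, 0)).2
  set c := (A (0, 1)).1
  set d := (A (0, 1)).2
  set a' := (B (1, 0)).1
  set b' := (B (1, 0)).2
  set c' := (B (0, 1)).1
  set d' := (B (0, 1)).2
  have : (a' * d' - c' * b') * (a * d - b * c) = 1 := by
    linear_combination (b' * c + d' * d) * e1 - (a' * c + c' * d) * e2 + e4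
  rw [hd, mul_zero] at this
  exact zero_ne_one this

theorem D0_smooth {F : ℝ → Equiv.Perm P2} (h : ContDiff ℝ ∞ (fun q : ℝ × P2 => F q.1 q.2)) :
    ContDiff ℝ ∞ (fun t => D0 (F t)) := by
  unfold D0
  exact ContDiff.fderiv (f := fun (t : ℝ) (p : P2) => F t p) (g := fun _ => (0 : P2))
    (m := ∞) (n := ∞) h contDiff_const (by simp)

theorem D0_of_eq {f : Equiv.Perm P2} {a b c d ε : ℝ} (hε : 0 < ε)
    (h : ∀ p, ‖p‖ ≤ ε → f p = (a * p.1 + c * p.2, b * p.1 + d * p.2)) : D0 f = Mt a b c d := by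
  unfold D0
  have : (fun p => f p) =ᶠ[𝓝 0] Mt a b c d := by
    have h1 : ∀ᶠ p : P2 in 𝓝 0, ‖p‖ < ε := by
      have : Metric.ball (0 : P2) ε ∈ 𝓝 (0 : P2) := Metric.ball_mem_nhds _ hε
      filter_upwards [this] with p hp
      simpa using hp
    filter_upwards [h1] with p hp
    rw [Mt_apply]
    exact h p hp.le
  rw [this.fderiv_eq]
  exact ContinuousLinearMap.fderiv _

end Pool.Agent.W853.DQ
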