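import Pool.Agent.W133.DQ.StF

/-! Preparations for DQ-JB: the covering of the punctured plane. -/

set_option autoImplicit false

open scoped ContDiff
open Set Filter Topology

namespace Pool.Agent.W853.DQ

open Pool.Agent.W133.DQ

/-- the covering on the whole plane -/
noncomputable def Pi0 (p : P2) : P2 :=
  (Real.exp p.2 * Real.cos (2 * Real.pi * p.1), Real.exp p.2 * Real.sin (2 * Real.pi * p.1))

/-- plane to complex numbers -/
noncomputable def toC (q : P2) : ℂ := (q.1 : ℂ) + q.2 * Complex.I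

/-- complex coordinate upstairs -/
noncomputable def uC (p : P2) : ℂ := (p.2 : ℂ) + (2 * Real.pi * p.1 : ℝ) * Complex.I

/-- inverse of `uC` -/
noncomputable def wP (w : ℂ) : P2 := (w.im / (2 * Real.pi), w.re)

theorem toC_inj {q q' : P2} (h : toC q = toC q') : q = q' := by
  have h1 := congrArg Complex.re h
  have h2 := congrArg Complex.im h
  simp [toC] at h1 h2
  exact Prod.ext h1 h2

theorem toC_Pi (p : P2) : toC (Pi0 p) = Complex.exp (uC p) := by
  unfold toC uC Pi0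
  rw [Complex.exp_add, ← Complex.ofReal_exp, Complex.exp_mul_I, ← Complex.ofReal_cos,
    ← Complex.ofReal_sin]
  push_cast
  ring

theorem wP_uC (p : P2) : wP (uC p) = p := by
  unfold wP uC
  have := Real.pi_pos
  ext
  · simp
  · simp

theorem uC_wP (w : ℂ) : uC (wP w) = w := by
  unfold wP uC
  have := Real.pi_pos
  simp only
  rw [show 2 * Real.pi * (w.im / (2 * Real.pi)) = w.im by field_simp]
  exact Complex.re_add_im w

theorem toC_ne {q : P2} (h : q ≠ 0) : toC q ≠ 0 := by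
  intro h1
  apply h
  apply toC_inj
  rw [h1]
  simp [toC]

theorem Pi_wP (w : ℂ) : toC (Pi0 (wP w)) = Complex.exp w := by
  rw [toC_Pi, uC_wP]

theorem Pi_ne (p : P2) : Pi0 p ≠ 0 := by
  intro h
  have := toC_Pi p
  rw [h] at this
  simp [toC] at this
  exact Complex.exp_ne_zero _ this.symm

/-- integer translation -/
def tz (n : ℤ) (p : P2) : P2 := (p.1 + n, p.2)

theorem uC_tz (n : ℤ) (p : P2) : uC (tz n p) = uC p + n * (2 * Real.pi * Complex.I) := by
  unfold uC tz
  push_cast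
  ring

theorem Pi_tz (n : ℤ) (p : P2) : Pi0 (tz n p) = Pi0 p := by
  apply toC_inj
  rw [toC_Pi, toC_Pi, uC_tz, Complex.exp_periodic.int_mul]

theorem Pi_eq {p q : P2} (h : Pi0 p = Pi0 q) : ∃ n : ℤ, p = tz n q := by
  have h1 : Complex.exp (uC p) = Complex.exp (uC q) := by rw [← toC_Pi, ← toC_Pi, h]
  obtain ⟨n, hn⟩ := Complex.exp_eq_exp_iff_exists_int.1 h1
  refine ⟨n, ?_⟩
  rw [← wP_uC p, hn, ← uC_tz, wP_uC]

/-- square norm -/
def sq2 (q : P2) : ℝ := q.1 ^ 2 + q.2 ^ 2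

theorem sq2_Pi (p : P2) : sq2 (Pi0 p) = Real.exp (2 * p.2) := by
  unfold sq2 Pi0
  simp only
  rw [show 2 * p.2 = p.2 + p.2 by ring, Real.exp_add]
  linear_combination (Real.exp p.2) ^ 2 * Real.sin_sq_add_cos_sq (2 * Real.pi * p.1)

/-- section -/
noncomputable def sc (q : P2) : P2 := wP (Complex.log (toC q))

theorem Pi_sc {q : P2} (h : q ≠ 0) : Pi0 (sc q) = q := by
  apply toC_inj
  unfold sc
  rw [Pi_wP, Complex.exp_log (toC_ne h)]

theorem sc_zero : sc 0 = 0 := by
  unfold sc wP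
  have : toC 0 = 0 := by simp [toC]
  rw [this]
  simp

/-- local inverse -/
noncomputable def lsc (p0 q : P2) : P2 := wP (uC p0 + Complex.log (toC q / toC (Pi0 p0)))

theorem toC_contDiff : ContDiff ℝ ∞ toC := by
  unfold toC
  have h1 : ContDiff ℝ ∞ (fun q : P2 => (q.1 : ℂ)) :=
    Complex.ofRealCLM.contDiff.comp contDiff_fst
  have h2 : ContDiff ℝ ∞ (fun q : P2 => (q.2 : ℂ)) :=
    Complex.ofRealCLM.contDiff.comp contDiff_snd
  exact h1.add (h2.mul contDiff_const)

theorem wP_contDiff : ContDiff ℝ ∞ wP := by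
  unfold wP
  exact (Complex.imCLM.contDiff.div_const _).prodMk Complex.reCLM.contDiff

theorem Pi_contDiff : ContDiff ℝ ∞ Pi0 := by
  unfold Pi0
  have h1 : ContDiff ℝ ∞ (fun p : P2 => Real.exp p.2) := Real.contDiff_exp.comp contDiff_snd
  have h2 : ContDiff ℝ ∞ (fun p : P2 => 2 * Real.pi * p.1) := contDiff_const.mul contDiff_fst
  exact (h1.mul (Real.contDiff_cos.comp h2)).prodMk (h1.mul (Real.contDiff_sin.comp h2))

theorem lsc_contDiffAt (p0 : P2) : ContDiffAt ℝ ∞ (lsc p0) (Pi0 p0) := by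
  unfold lsc
  have hne := toC_ne (Pi_ne p0)
  have h1 : ContDiffAt ℝ ∞ (fun q => toC q / toC (Pi0 p0)) (Pi0 p0) :=
    (toC_contDiff.div_const _).contDiffAt
  have h2 : toC (Pi0 p0) / toC (Pi0 p0) ∈ Complex.slitPlane := by
    rw [div_self hne]; exact Complex.one_mem_slitPlane
  have h3 : ContDiffAt ℝ ∞ (fun q => Complex.log (toC q / toC (Pi0 p0))) (Pi0 p0) :=
    ContDiffAt.comp (g := Complex.log) (Pi0 p0)
      ((Complex.contDiffAt_log h2).restrict_scalars ℝ) h1
  exact wP_contDiff.contDiffAt.comp (Pi0 p0) (contDiffAt_const.add h3)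

theorem lsc_self (p0 : P2) : lsc p0 (Pi0 p0) = p0 := by
  unfold lsc
  rw [div_self (toC_ne (Pi_ne p0)), Complex.log_one, add_zero, wP_uC]

theorem Pi_lsc (p0 : P2) {q : P2} (h : q ≠ 0) : Pi0 (lsc p0 q) = q := by
  apply toC_inj
  unfold lsc
  have hne := toC_ne (Pi_ne p0)
  rw [Pi_wP, Complex.exp_add, Complex.exp_log (div_ne_zero (toC_ne h) hne), ← toC_Pi]
  field_simp

/-- derivative of the covering -/
noncomputable def dPi (p : P2) : P2 →L[ℝ] P2 :=
  ((-(2 * Real.pi) * (Real.exp p.2 * Real.sin (2 * Real.pi * p.1))) •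
      ContinuousLinearMap.fst ℝ ℝ ℝ +
    (Real.exp p.2 * Real.cos (2 * Real.pi * p.1)) • ContinuousLinearMap.snd ℝ ℝ ℝ).prod
  (((2 * Real.pi) * (Real.exp p.2 * Real.cos (2 * Real.pi * p.1))) •
      ContinuousLinearMap.fst ℝ ℝ ℝ +
    (Real.exp p.2 * Real.sin (2 * Real.pi * p.1)) • ContinuousLinearMap.snd ℝ ℝ ℝ)

theorem Pi_hasFDerivAt (p : P2) : HasFDerivAt Pi0 (dPi p) p := by
  have h1 : HasFDerivAt (fun p : P2 => Real.exp p.2)
      (Real.exp p.2 • ContinuousLinearMap.snd ℝ ℝ ℝ) p := hasFDerivAt_snd.exp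
  have h2 : HasFDerivAt (fun p : P2 => 2 * Real.pi * p.1)
      ((2 * Real.pi) • ContinuousLinearMap.fst ℝ ℝ ℝ) p := hasFDerivAt_fst.const_mul _
  have h3 := (h1.mul h2.cos).prodMk (h1.mul h2.sin)
  refine h3.congr_fderiv (ContinuousLinearMap.ext fun h => ?_)
  unfold dPi
  ext
  · simp
    ring
  · simp
    ring

theorem det_dPi (p : P2) : (dPi p).det < 0 := by
  have h : (dPi p).det = -(2 * Real.pi) * Real.exp (p.2) ^ 2 := by
    unfold ContinuousLinearMap.det
    rw [← LinearMap.det_toMatrix (Module.Basis.finTwoProd ℝ), Matrix.det_fin_two]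
    simp [LinearMap.toMatrix_apply, dPi]
    linear_combination (-(2 * Real.pi) * Real.exp (p.2) ^ 2) *
      Real.sin_sq_add_cos_sq (2 * Real.pi * p.1)
  rw [h]
  have := Real.pi_pos
  have := Real.exp_pos p.2
  have h2 : 0 < (2 * Real.pi) * Real.exp (p.2) ^ 2 := by positivity
  linarith

end Pool.Agent.W853.DQ
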