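import Pool.Agent.W853.DQ.JBA
import Pool.Agent.W853.DQ.Curve

/-! DQ-JB: the transfer map. -/

set_option autoImplicit false

open scoped ContDiff
open Set Filter Topology

namespace Pool.Agent.W853.DQ

open Pool.Agent.W133.DQ

theorem norm_toC (q : P2) : ‖toC q‖ ^ 2 = sq2 q := by
  rw [← Complex.normSq_eq_norm_sq, Complex.normSq_apply]
  simp [toC, sq2]
  ring

theorem sc_snd (q : P2) : (sc q).2 = Real.log ‖toC q‖ := by
  unfold sc wP
  simp [Complex.log_re]

theorem sc_nonpos {q : P2} (h : sq2 q ≤ 1) : (sc q).2 ≤ 0 := by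
  rw [sc_snd]
  apply Real.log_nonpos (norm_nonneg _)
  rw [← norm_toC] at h
  nlinarith [norm_nonneg (toC q)]

/-- section of the disk -/
noncomputable def secD (q : DD) : HH := ⟨sc q.1, sc_nonpos q.2⟩

theorem pii_coe (p : HH) : ((pii p : DD) : P2) = Pi0 p.1 := rfl

theorem pii_ne (p : HH) : pii p ≠ dO := by
  intro h
  have := congrArg Subtype.val h
  exact Pi_ne p.1 this

theorem coe_ne {q : DD} (h : q ≠ dO) : (q : P2) ≠ 0 := fun h1 => h (Subtype.ext h1)

theorem pii_secD {q : DD} (h : q ≠ dO) : pii (secD q) = q :=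
  Subtype.ext (Pi_sc (coe_ne h))

theorem hT_hT (a b : ℝ) (p : HH) : hT a (hT b p) = hT (a + b) p := by
  apply Subtype.ext
  simp only [hT_coe]
  ext
  · simp only
    ring
  · rfl

theorem hT_zero (p : HH) : hT 0 p = p := by
  apply Subtype.ext
  simp only [hT_coe]
  ext <;> simp

theorem pii_hT (n : ℤ) (p : HH) : pii (hT n p) = pii p := Subtype.ext (Pi_tz n p.1)

theorem pii_eq {p q : HH} (h : pii p = pii q) : ∃ n : ℤ, p = hT n q := by
  obtain ⟨n, hn⟩ := Pi_eq (congrArg Subtype.val h)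
  exact ⟨n, Subtype.ext hn⟩

theorem equiv_nat {f : HH → HH} (h : ∀ p, f (hT 1 p) = hT 1 (f p)) (n : ℕ) (p : HH) :
    f (hT n p) = hT n (f p) := by
  induction n with
  | zero => simp only [Nat.cast_zero, hT_zero]
  | succ n ih =>
    have e : ∀ q : HH, hT ((n + 1 : ℕ) : ℝ) q = hT 1 (hT n q) := by
      intro q
      rw [hT_hT]
      congr 2
      push_cast
      ring
    rw [e, e, h, ih]

theorem equiv_int {f : HH → HH} (h : ∀ p, f (hT 1 p) = hT 1 (f p)) (n : ℤ) (p : HH) :
    f (hT n p) = hT n (f p) := by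
  obtain ⟨m, rfl | rfl⟩ := n.eq_nat_or_neg
  · simpa using equiv_nat h m p
  · have h1 := equiv_nat h m (hT (-m : ℝ) p)
    rw [hT_hT, add_neg_cancel, hT_zero] at h1
    push_cast
    rw [h1, hT_hT, neg_add_cancel, hT_zero]

/-- the transfer -/
noncomputable def Jf (f : HH → HH) (q : DD) : DD := by
  classical exact if q = dO then dO else pii (f (secD q))

theorem Jf_dO (f : HH → HH) : Jf f dO = dO := by
  unfold Jf
  rw [if_pos rfl]

theorem Jf_pii {f : HH → HH} (h : ∀ p, f (hT 1 p) = hT 1 (f p)) (p : HH) :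
    Jf f (pii p) = pii (f p) := by
  unfold Jf
  rw [if_neg (pii_ne p)]
  obtain ⟨n, hn⟩ := pii_eq (pii_secD (pii_ne p))
  rw [hn, equiv_int h, pii_hT]

theorem Jf_comp {f g : HH → HH} (hf : ∀ p, f (hT 1 p) = hT 1 (f p))
    (hg : ∀ p, g (hT 1 p) = hT 1 (g p)) (q : DD) :
    Jf (fun p => f (g p)) q = Jf f (Jf g q) := by
  by_cases h : q = dO
  · rw [h, Jf_dO, Jf_dO, Jf_dO]
  · rw [← pii_secD h, Jf_pii hg, Jf_pii hf, Jf_pii (f := fun p => f (g p))
      (fun p => by rw [hg, hf])]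

theorem Jf_id (q : DD) : Jf (fun p => p) q = q := by
  by_cases h : q = dO
  · rw [h, Jf_dO]
  · rw [← pii_secD h, Jf_pii (f := fun p => p) (fun p => rfl)]

theorem BB_eq {f : Equiv.Perm HH} (hf : f ∈ BB) : ∀ p, f (hT 1 p) = hT 1 (f p) := hf.2.2.1

/-- the transfer of an element of `BB` -/
noncomputable def JB (f : Equiv.Perm HH) (hf : f ∈ BB) : Equiv.Perm DD where
  toFun := Jf f
  invFun := Jf (⇑(f⁻¹))
  left_inv q := by
    rw [← Jf_comp (BB_eq (BB.inv_mem hf)) (BB_eq hf)]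
    have : (fun p => f⁻¹ (f p)) = fun p => p := by funext p; exact f.symm_apply_apply p
    rw [this, Jf_id]
  right_inv q := by
    rw [← Jf_comp (BB_eq hf) (BB_eq (BB.inv_mem hf))]
    have : (fun p => f (f⁻¹ p)) = fun p => p := by funext p; exact f.apply_symm_apply p
    rw [this, Jf_id]

/-- smooth extension downstairs -/
noncomputable def Fh (F : P2 → P2) (q : P2) : P2 := by
  classical exact if q = 0 then 0 else Pi0 (F (sc q))

theorem tz_nat {F : P2 → P2} (h : ∀ p : P2, F (p.1 + 1, p.2) = F p + (1, 0)) (n : ℕ) (p : P2) :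
    F (tz n p) = tz n (F p) := by
  induction n with
  | zero => simp [tz]
  | succ n ih =>
    have e : tz ((n + 1 : ℕ) : ℤ) p = ((tz n p).1 + 1, (tz n p).2) := by
      unfold tz
      push_cast
      ext
      · simp only
        ring
      · rfl
    rw [e, h, ih]
    unfold tz
    push_cast
    ext
    · simp only [Prod.fst_add]
      ring
    · simp

theorem tz_int {F : P2 → P2} (h : ∀ p : P2, F (p.1 + 1, p.2) = F p + (1, 0)) (n : ℤ) (p : P2) :
    F (tz n p) = tz n (F p) := by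
  have e : ∀ (a b : ℤ) (q : P2), tz a (tz b q) = tz (a + b) q := by
    intro a b q
    unfold tz
    push_cast
    ext
    · simp only
      ring
    · rfl
  have e0 : ∀ q : P2, tz 0 q = q := by
    intro q
    simp [tz]
  obtain ⟨m, rfl | rfl⟩ := n.eq_nat_or_neg
  · exact tz_nat h m p
  · have h1 := tz_nat h m (tz (-m) p)
    rw [e, add_neg_cancel, e0] at h1
    rw [h1, e, neg_add_cancel, e0]

theorem Fh_Pi {F : P2 → P2} (h : ∀ p : P2, F (p.1 + 1, p.2) = F p + (1, 0)) (p : P2) :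
    Fh F (Pi0 p) = Pi0 (F p) := by
  unfold Fh
  rw [if_neg (Pi_ne p)]
  obtain ⟨n, hn⟩ := Pi_eq (Pi_sc (Pi_ne p))
  rw [hn, tz_int h, Pi_tz]

theorem Fh_low {F : P2 → P2} {l : ℝ} (hl : ∀ p : P2, p.2 ≤ l → F p = p) {q : P2}
    (hq : sq2 q < Real.exp (2 * l)) : Fh F q = q := by
  unfold Fh
  split_ifs with h
  · exact h.symm
  · have h1 : (sc q).2 ≤ l := by
      rw [sc_snd]
      have h2 : 0 < ‖toC q‖ := norm_pos_iff.2 (toC_ne h)
      rw [Real.log_le_iff_le_exp h2]
      have h3 : ‖toC q‖ ^ 2 ≤ Real.exp l ^ 2 := by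
        rw [norm_toC, ← Real.exp_nat_mul]
        exact hq.le
      exact (pow_le_pow_iff_left₀ h2.le (Real.exp_pos l).le (by norm_num)).1 h3
    rw [hl _ h1, Pi_sc h]

theorem sq2_cont : Continuous sq2 := by
  unfold sq2
  fun_prop

theorem Fh_ev_low {F : P2 → P2} {l : ℝ} (hl : ∀ p : P2, p.2 ≤ l → F p = p) {q : P2}
    (hq : sq2 q < Real.exp (2 * l)) : Fh F =ᶠ[𝓝 q] id := by
  have : ∀ᶠ r in 𝓝 q, sq2 r < Real.exp (2 * l) := sq2_cont.continuousAt.eventually (gt_mem_nhds hq)
  filter_upwards [this] with r hr using Fh_low hl hr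

theorem Fh_contDiff {F : P2 → P2} (hF : ContDiff ℝ ∞ F)
    (h : ∀ p : P2, F (p.1 + 1, p.2) = F p + (1, 0)) {l : ℝ} (hl : ∀ p : P2, p.2 ≤ l → F p = p) :
    ContDiff ℝ ∞ (Fh F) := by
  rw [contDiff_iff_contDiffAt]
  intro q
  by_cases hq : q = 0
  · have : sq2 q < Real.exp (2 * l) := by
      rw [hq]
      simp only [sq2, Prod.fst_zero, Prod.snd_zero]
      norm_num
      exact Real.exp_pos _
    exact contDiffAt_id.congr_of_eventuallyEq (Fh_ev_low hl this)
  · set p0 := sc q with hp0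
    have hq0 : Pi0 p0 = q := Pi_sc hq
    have h1 : ContDiffAt ℝ ∞ (lsc p0) q := by
      rw [← hq0]; exact lsc_contDiffAt p0
    have h2 : ContDiffAt ℝ ∞ (fun r => Pi0 (F (lsc p0 r))) q :=
      (Pi_contDiff.comp hF).contDiffAt.comp q h1
    refine h2.congr_of_eventuallyEq ?_
    have : ∀ᶠ r in 𝓝 q, r ≠ 0 := isOpen_ne.mem_nhds hq
    filter_upwards [this] with r hr
    conv_lhs => rw [← Pi_lsc p0 hr]
    rw [Fh_Pi h]

theorem fst_lt_mem {p : P2} (h : p.2 < 0) : ∀ᶠ q : P2 in 𝓝 p, q.2 < 0 :=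
  continuousAt_snd.eventually (gt_mem_nhds h)

theorem det_comp' (A B : P2 →L[ℝ] P2) : (A.comp B).det = A.det * B.det :=
  LinearMap.det_comp _ _

theorem det_id' : (ContinuousLinearMap.id ℝ P2).det = 1 := by
  simp [ContinuousLinearMap.det]

/-- positivity of the Jacobian upstairs -/
theorem det_pos {f : Equiv.Perm HH} {F F2 : P2 → P2} (hF : ContDiff ℝ ∞ F) (hF2 : ContDiff ℝ ∞ F2)
    (hf : ∀ p : HH, (f p : P2) = F p) (hf2 : ∀ p : HH, (f⁻¹ p : P2) = F2 p)
    {l : ℝ} (hl : ∀ p : P2, p.2 ≤ l → F p = p) (p : P2) (hp : p.2 ≤ 0) :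
    0 < (fderiv ℝ F p).det := by
  have hinv : ∀ q : P2, q.2 ≤ 0 → F2 (F q) = q := by
    intro q hq
    have h1 := hf ⟨q, hq⟩
    have h2 := hf2 (f ⟨q, hq⟩)
    rw [show f⁻¹ (f ⟨q, hq⟩) = ⟨q, hq⟩ from f.symm_apply_apply _, h1] at h2
    exact h2.symm
  have hc : Continuous (fun q => (fderiv ℝ F2 (F q)).det * (fderiv ℝ F q).det) := by
    have c1 : Continuous (fderiv ℝ F2) := hF2.continuous_fderiv (by simp)
    have c2 : Continuous (fderiv ℝ F) := hF.continuous_fderiv (by simp)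
    have c3 := ContinuousLinearMap.continuous_det (𝕜 := ℝ) (E := P2)
    exact (c3.comp (c1.comp hF.continuous)).mul (c3.comp c2)
  have hint : ∀ q : P2, q.2 < 0 → (fderiv ℝ F2 (F q)).det * (fderiv ℝ F q).det = 1 := by
    intro q hq
    have e1 : F2 ∘ F =ᶠ[𝓝 q] id := by
      filter_upwards [fst_lt_mem hq] with r hr using hinv r hr.le
    have e2 := fderiv_comp (𝕜 := ℝ) q (hF2.differentiable (by simp) (F q))
      (hF.differentiable (by simp) q)
    rw [e1.fderiv_eq, fderiv_id] at e2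
    rw [← det_comp', ← e2, det_id']
  have hall : ∀ q : P2, q.2 ≤ 0 → (fderiv ℝ F2 (F q)).det * (fderiv ℝ F q).det = 1 := by
    intro q hq
    have hcl : IsClosed {t : ℝ | (fderiv ℝ F2 (F (q.1, t))).det * (fderiv ℝ F (q.1, t)).det = 1} := by
      have : Continuous (fun t : ℝ => ((q.1, t) : P2)) := by fun_prop
      exact isClosed_eq (hc.comp this) continuous_const
    have hsub : Iio (0 : ℝ) ⊆
        {t : ℝ | (fderiv ℝ F2 (F (q.1, t))).det * (fderiv ℝ F (q.1, t)).det = 1} :=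
      fun t ht => hint (q.1, t) ht
    have := hcl.closure_subset_iff.2 hsub
    rw [closure_Iio] at this
    exact this hq
  have hne : ∀ q : P2, q.2 ≤ 0 → (fderiv ℝ F q).det ≠ 0 := by
    intro q hq h
    have := hall q hq
    rw [h, mul_zero] at this
    exact zero_ne_one this
  -- along the vertical line
  set a : ℝ := min (l - 1) (p.2) with ha
  have hap : a ≤ p.2 := min_le_right _ _
  have hal : a < l := lt_of_le_of_lt (min_le_left _ _) (by linarith)
  have hdc : ContinuousOn (fun t : ℝ => (fderiv ℝ F (p.1, t)).det) (Icc a p.2) := by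
    have c2 : Continuous (fderiv ℝ F) := hF.continuous_fderiv (by simp)
    have c3 := ContinuousLinearMap.continuous_det (𝕜 := ℝ) (E := P2)
    have : Continuous (fun t : ℝ => ((p.1, t) : P2)) := by fun_prop
    exact (c3.comp (c2.comp this)).continuousOn
  have hstart : (0 : ℝ) < (fun t : ℝ => (fderiv ℝ F (p.1, t)).det) a := by
    simp only
    have e1 : F =ᶠ[𝓝 (p.1, a)] id := by
      have : ∀ᶠ q : P2 in 𝓝 (p.1, a), q.2 < l :=
        continuousAt_snd.eventually (gt_mem_nhds hal)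
      filter_upwards [this] with q hq using hl q hq.le
    rw [e1.fderiv_eq, fderiv_id, det_id']
    norm_num
  have := stay_gt (v := 0) hdc (fun t ht => hne (p.1, t) (ht.2.trans hp)) hstart p.2 ⟨hap, le_rfl⟩
  exact this

/-- smooth extension of the transfer with positive Jacobian -/
theorem ext_J {f : Equiv.Perm HH} (hf : f ∈ BB) (hPE : S_PEXT) : ExtD (JB f hf) := by
  obtain ⟨F, hF, hfF, hFe⟩ := hPE f hf
  obtain ⟨-, ⟨F2, hF2, hfF2⟩, -, -, l, hl⟩ := id hf
  have hlF : ∀ p : P2, p.2 ≤ min l 0 → F p = p := by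
    intro p hp
    have h0 : p.2 ≤ 0 := hp.trans (min_le_right _ _)
    have h1 := hl ⟨p, h0⟩ (hp.trans (min_le_left _ _))
    have h2 := hfF ⟨p, h0⟩
    rw [h1] at h2
    exact h2.symm
  refine ⟨Fh F, Fh_contDiff hF hFe hlF, ?_, ?_⟩
  · intro q
    by_cases h : q = dO
    · rw [h]
      change ((Jf f dO : DD) : P2) = Fh F 0
      rw [Jf_dO]
      unfold Fh
      rw [if_pos rfl]
      rfl
    · change ((Jf f q : DD) : P2) = Fh F q
      unfold Jf Fh
      rw [if_neg h, if_neg (coe_ne h), pii_coe, hfF]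
      rfl
  · intro q
    by_cases h : q = dO
    · have h1 : sq2 (q : P2) < Real.exp (2 * min l 0) := by
        rw [h]
        have : sq2 ((dO : DD) : P2) = 0 := by simp [sq2, dO]
        rw [this]
        exact Real.exp_pos _
      rw [(Fh_ev_low hlF h1).fderiv_eq, fderiv_id, det_id']
      norm_num
    · have h1 : (q : P2) = Pi0 (secD q).1 := (congrArg Subtype.val (pii_secD h)).symm
      set p := (secD q).1 with hp
      have e1 : Fh F ∘ Pi0 = Pi0 ∘ F := by
        funext r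
        exact Fh_Pi hFe r
      have d1 := fderiv_comp (𝕜 := ℝ) p ((Fh_contDiff hF hFe hlF).differentiable (by simp) (Pi0 p))
        (Pi_contDiff.differentiable (by simp) p)
      have d2 := fderiv_comp (𝕜 := ℝ) p (Pi_contDiff.differentiable (by simp) (F p))
        (hF.differentiable (by simp) p)
      rw [e1, d2] at d1
      have d3 := congrArg ContinuousLinearMap.det d1
      rw [det_comp', det_comp', (Pi_hasFDerivAt p).fderiv, (Pi_hasFDerivAt (F p)).fderiv] at d3
      rw [h1]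
      have p1 := det_pos hF hF2 hfF hfF2 hlF p (secD q).2
      have p2 := det_dPi p
      have p3 := det_dPi (F p)
      by_contra hneg
      have h5 := not_lt.1 hneg
      have h6 : (dPi (F p)).det * (fderiv ℝ F p).det < 0 := mul_neg_of_neg_of_pos p3 p1
      have h7 : 0 ≤ (fderiv ℝ (Fh F) (Pi0 p)).det * (dPi p).det := mul_nonneg_of_nonpos_of_nonpos h5 p2.le
      rw [d3] at h6
      linarith

end Pool.Agent.W853.DQ
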