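import Pool.Agent.W853.DQ.JBB

/-! DQ-JB: lifting of maps of the disk. -/

set_option autoImplicit false

open scoped ContDiff
open Set Filter Topology

namespace Pool.Agent.W853.DQ

open Pool.Agent.W133.DQ

/-- cutoff of the vertical coordinate -/
noncomputable def bet (δ y : ℝ) : ℝ := y * Real.smoothTransition (1 - y / δ)

theorem bet_low {δ y : ℝ} (hδ : 0 < δ) (hy : y ≤ 0) : bet δ y = y := by
  unfold bet
  have : y / δ ≤ 0 := div_nonpos_of_nonpos_of_nonneg hy hδ.le
  rw [Real.smoothTransition.one_of_one_le (by linarith), mul_one]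

theorem bet_high {δ y : ℝ} (hδ : 0 < δ) (hy : 0 < y) : 0 ≤ bet δ y ∧ bet δ y < δ := by
  unfold bet
  have h0 := Real.smoothTransition.nonneg (1 - y / δ)
  have h1 := Real.smoothTransition.le_one (1 - y / δ)
  refine ⟨mul_nonneg hy.le h0, ?_⟩
  by_cases h : y < δ
  · nlinarith
  · have h2 : 1 ≤ y / δ := by rw [le_div_iff₀ hδ]; linarith [not_lt.1 h]
    rw [Real.smoothTransition.zero_of_nonpos (by linarith), mul_zero]
    exact hδ

theorem bet_contDiff (δ : ℝ) : ContDiff ℝ ∞ (bet δ) := by
  unfold bet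
  exact contDiff_id.mul (Real.smoothTransition.contDiff.comp
    (contDiff_const.sub (contDiff_id.div_const _)))

theorem sq2_le (q : P2) (h : ‖q‖ ≤ 1) : |q.1| ≤ 1 ∧ |q.2| ≤ 1 :=
  ⟨(norm_fst_le q).trans h, (norm_snd_le q).trans h⟩

theorem circle_compact : IsCompact {q : P2 | sq2 q = 1} := by
  have h1 : IsClosed {q : P2 | sq2 q = 1} := isClosed_eq sq2_cont continuous_const
  refine (isCompact_Icc (a := ((-1, -1) : P2)) (b := (1, 1))).of_isClosed_subset h1 ?_
  rintro ⟨a, b⟩ h
  have h : a ^ 2 + b ^ 2 = 1 := h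
  have ha : |a| ≤ 1 := by rw [← sq_le_one_iff_abs_le_one]; nlinarith [sq_nonneg b]
  have hb : |b| ≤ 1 := by rw [← sq_le_one_iff_abs_le_one]; nlinarith [sq_nonneg a]
  rw [abs_le] at ha hb
  exact ⟨⟨ha.1, hb.1⟩, ⟨ha.2, hb.2⟩⟩

theorem exists_delta {G : P2 → P2} (hG : Continuous G)
    (hne : ∀ q : P2, q ≠ 0 → sq2 q ≤ 1 → G q ≠ 0) :
    ∃ δ : ℝ, 0 < δ ∧ ∀ p : P2, p.2 < δ → G (Pi0 p) ≠ 0 := by
  have hU : IsOpen {q : P2 | G q ≠ 0} := isOpen_ne_fun hG continuous_const
  have hsub : {q : P2 | sq2 q = 1} ⊆ {q : P2 | G q ≠ 0} := by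
    intro q hq
    have hq : sq2 q = 1 := hq
    refine hne q ?_ hq.le
    rintro rfl
    simp [sq2] at hq
  obtain ⟨η, hη, h⟩ := circle_compact.exists_thickening_subset_open hU hsub
  refine ⟨Real.log (1 + η), Real.log_pos (by linarith), fun p hp => ?_⟩
  by_cases h0 : p.2 ≤ 0
  · refine hne _ (Pi_ne p) ?_
    rw [sq2_Pi, Real.exp_le_one_iff]
    linarith
  · have h0 := not_le.1 h0
    apply h
    rw [Metric.mem_thickening_iff]
    refine ⟨Pi0 (p.1, 0), ?_, ?_⟩
    · change sq2 (Pi0 (p.1, 0)) = 1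
      rw [sq2_Pi]
      simp
    · have h1 : Real.exp p.2 < 1 + η := by
        rw [← Real.lt_log_iff_exp_lt (by linarith)]
        exact hp
      have h2 : 1 < Real.exp p.2 := Real.one_lt_exp_iff.2 h0
      rw [dist_eq_norm]
      have h3 : Pi0 p - Pi0 (p.1, 0) = (Real.exp p.2 - 1) •
          ((Real.cos (2 * Real.pi * p.1), Real.sin (2 * Real.pi * p.1)) : P2) := by
        unfold Pi0
        ext
        · simp
          ring
        · simp
          ring
      rw [h3, norm_smul, Real.norm_eq_abs, abs_of_pos (by linarith)]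
      have h4 : ‖((Real.cos (2 * Real.pi * p.1), Real.sin (2 * Real.pi * p.1)) : P2)‖ ≤ 1 := by
        rw [Prod.norm_def]
        exact max_le (Real.abs_cos_le_one _) (Real.abs_sin_le_one _)
      nlinarith

theorem lift_G {G : P2 → P2} (hG : ContDiff ℝ ∞ G) {ε : ℝ} (hε : 0 < ε)
    (hid : ∀ q : P2, sq2 q < ε → sq2 q ≤ 1 → G q = q)
    (hne : ∀ q : P2, q ≠ 0 → sq2 q ≤ 1 → G q ≠ 0) :
    ∃ (F : P2 → P2) (l : ℝ), ContDiff ℝ ∞ F ∧ (∀ p : P2, p.2 ≤ 0 → Pi0 (F p) = G (Pi0 p)) ∧
      (∀ p : P2, F (p.1 + 1, p.2) = F p + (1, 0)) ∧ ∀ p : P2, p.2 ≤ l → F p = p := by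
  have hpi := Real.pi_pos
  obtain ⟨δ, hδ, hδn⟩ := exists_delta hG.continuous hne
  set l : ℝ := min (-1) (Real.log ε / 2 - 1) with hl
  have hl1 : l ≤ -1 := min_le_left _ _
  have hl2 : l ≤ Real.log ε / 2 - 1 := min_le_right _ _
  have hlow : ∀ p : P2, p.2 < l + 1 → G (Pi0 p) = Pi0 p := by
    intro p hp
    apply hid
    · rw [sq2_Pi, ← Real.lt_log_iff_exp_lt hε]
      linarith
    · rw [sq2_Pi, Real.exp_le_one_iff]
      linarith
  set Z : P2 → ℂ := fun p => toC (G (Pi0 (p.1, bet δ p.2))) with hZ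
  have hZs : ContDiff ℝ ∞ Z := by
    have h1 : ContDiff ℝ ∞ (fun p : P2 => ((p.1, bet δ p.2) : P2)) :=
      contDiff_fst.prodMk ((bet_contDiff δ).comp contDiff_snd)
    exact toC_contDiff.comp (hG.comp (Pi_contDiff.comp h1))
  have hZne : ∀ p, Z p ≠ 0 := by
    intro p
    apply toC_ne
    apply hδn
    simp only
    by_cases h : p.2 ≤ 0
    · rw [bet_low hδ h]; linarith
    · exact (bet_high hδ (not_le.1 h)).2
  have hZlow : ∀ p : P2, p.2 < l + 1 → Z p = Complex.exp (uC p) := by
    intro p hp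
    simp only [hZ]
    rw [bet_low hδ (by linarith), hlow _ hp, toC_Pi]
  set D : P2 → ℂ := fun p => fderiv ℝ Z p (0, 1) with hD
  have hDc : Continuous D := by
    have c2 : Continuous (fderiv ℝ Z) := hZs.continuous_fderiv (by simp)
    exact c2.clm_apply continuous_const
  have hder : ∀ x t : ℝ, HasDerivAt (fun s => Z (x, s)) (D (x, t)) t := by
    intro x t
    have h1 : HasFDerivAt Z (fderiv ℝ Z (x, t)) (x, t) :=
      (hZs.differentiable (by simp) (x, t)).hasFDerivAt
    have h2 : HasDerivAt (fun s : ℝ => ((x, s) : P2)) ((0, 1) : P2) t :=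
      (hasDerivAt_const t x).prodMk (hasDerivAt_id t)
    exact h1.comp_hasDerivAt t h2
  set V : ℝ → ℝ → ℂ := fun x t => D (x, t) / Z (x, t) with hV
  have hVc : Continuous (Function.uncurry V) := by
    have : Continuous (fun p : P2 => D p / Z p) := hDc.div hZs.continuous hZne
    exact this
  set W : P2 → ℂ := fun p => uC (p.1, l) + ∫ t in l..p.2, V p.1 t with hW
  have hWc : Continuous W := by
    have h1 : Continuous (fun p : P2 => uC (p.1, l)) := by
      unfold uC
      fun_prop
    have h2 : Continuous (fun p : P2 => ∫ t in l..p.2, V p.1 t) := by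
      have h3 : Continuous (Function.uncurry (fun (p : P2) (t : ℝ) => V p.1 t)) := by
        have : Continuous (fun r : P2 × ℝ => ((r.1.1, r.2) : ℝ × ℝ)) := by fun_prop
        exact hVc.comp this
      exact intervalIntegral.continuous_parametric_intervalIntegral_of_continuous h3 continuous_snd
    exact h1.add h2
  have hWd : ∀ x t : ℝ, HasDerivAt (fun s => W (x, s)) (V x t) t := by
    intro x t
    have h1 : Continuous (V x) := by
      have : Continuous (fun s : ℝ => ((x, s) : ℝ × ℝ)) := by fun_prop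
      exact hVc.comp this
    have h2 := (h1.integral_hasStrictDerivAt l t).hasDerivAt
    exact h2.const_add (uC (x, l))
  have hexp : ∀ p, Complex.exp (W p) = Z p := by
    intro p
    have h1 : ∀ t, HasDerivAt (fun s => Complex.exp (-W (p.1, s)) * Z (p.1, s)) 0 t := by
      intro t
      have e1 := ((hWd p.1 t).neg.cexp).mul (hder p.1 t)
      refine e1.congr_deriv ?_
      simp only [hV]
      have := hZne (p.1, t)
      field_simp
      ring
    have h2 : ∀ s t, (fun s => Complex.exp (-W (p.1, s)) * Z (p.1, s)) s =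
        (fun s => Complex.exp (-W (p.1, s)) * Z (p.1, s)) t :=
      is_const_of_deriv_eq_zero (fun t => (h1 t).differentiableAt) (fun t => (h1 t).deriv)
    have h3 := h2 p.2 l
    simp only at h3
    have h4 : W (p.1, l) = uC (p.1, l) := by
      simp only [hW]
      rw [intervalIntegral.integral_same, add_zero]
    rw [h4, hZlow (p.1, l) (by simp only; linarith), ← Complex.exp_add, neg_add_cancel,
      Complex.exp_zero] at h3
    have h5 : Complex.exp (W p) * (Complex.exp (-W (p.1, p.2)) * Z (p.1, p.2)) =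
        Complex.exp (W p) := by rw [h3, mul_one]
    rw [← h5, ← mul_assoc, ← Complex.exp_add]
    simp
  have hWs : ContDiff ℝ ∞ W := by
    rw [contDiff_iff_contDiffAt]
    intro p0
    have h1 : ContDiffAt ℝ ∞ (fun p => W p0 + Complex.log (Z p / Z p0)) p0 := by
      have h2 : Z p0 / Z p0 ∈ Complex.slitPlane := by
        rw [div_self (hZne p0)]; exact Complex.one_mem_slitPlane
      have h3 : ContDiffAt ℝ ∞ (fun p => Z p / Z p0) p0 := (hZs.div_const _).contDiffAt
      exact contDiffAt_const.add (ContDiffAt.comp (g := Complex.log) p0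
        ((Complex.contDiffAt_log h2).restrict_scalars ℝ) h3)
    refine h1.congr_of_eventuallyEq ?_
    have h4 : Continuous (fun p => |(W p - W p0).im|) := by fun_prop
    have h5 : ∀ᶠ p in 𝓝 p0, |(W p - W p0).im| < Real.pi := by
      refine h4.continuousAt.eventually (gt_mem_nhds ?_)
      simp [hpi]
    filter_upwards [h5] with p hp
    rw [abs_lt] at hp
    rw [← hexp p, ← hexp p0, ← Complex.exp_sub, Complex.log_exp hp.1 hp.2.le]
    ring
  have hZper : ∀ x t : ℝ, Z (x + 1, t) = Z (x, t) := by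
    intro x t
    simp only [hZ]
    have := Pi_tz 1 (x, bet δ t)
    unfold tz at this
    simp only [Int.cast_one] at this
    rw [this]
  have hDper : ∀ x t : ℝ, D (x + 1, t) = D (x, t) := by
    intro x t
    have h1 := hder (x + 1) t
    have h2 : (fun s => Z (x + 1, s)) = fun s => Z (x, s) := by
      funext s
      exact hZper x s
    rw [h2] at h1
    exact h1.unique (hder x t)
  have hWper : ∀ p : P2, W (p.1 + 1, p.2) = W p + 2 * Real.pi * Complex.I := by
    intro p
    simp only [hW]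
    have e1 : V (p.1 + 1) = V p.1 := by
      funext t
      simp only [hV]
      rw [hDper, hZper]
    rw [e1]
    unfold uC
    push_cast
    ring
  have hDlow : ∀ x t : ℝ, t ≤ l → D (x, t) = Z (x, t) := by
    intro x t ht
    have h1 : (fun s => Z (x, s)) =ᶠ[𝓝 t] fun s => Complex.exp (uC (x, s)) := by
      filter_upwards [gt_mem_nhds (show t < l + 1 by linarith)] with s hs
      exact hZlow (x, s) hs
    have h2 : HasDerivAt (fun s : ℝ => uC (x, s)) 1 t := by
      unfold uC
      have := (Complex.ofRealCLM.hasDerivAt (x := t)).add_const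
        (((2 * Real.pi * x : ℝ) : ℂ) * Complex.I)
      simpa using this
    have h3 := (h2.cexp).congr_of_eventuallyEq h1
    rw [mul_one] at h3
    rw [hZlow (x, t) (by simp only; linarith)]
    exact (hder x t).unique h3
  have hWlow : ∀ p : P2, p.2 ≤ l → W p = uC p := by
    intro p hp
    have e1 : ∫ t in l..p.2, V p.1 t = ∫ t in l..p.2, (1 : ℂ) := by
      apply intervalIntegral.integral_congr
      intro t ht
      rw [uIcc_of_ge hp] at ht
      simp only [hV]
      rw [hDlow p.1 t ht.2, div_self (hZne _)]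
    simp only [hW]
    rw [e1, intervalIntegral.integral_const]
    unfold uC
    simp
    ring
  refine ⟨fun p => wP (W p), l, wP_contDiff.comp hWs, ?_, ?_, ?_⟩
  · intro p hp
    apply toC_inj
    rw [Pi_wP, hexp]
    simp only [hZ]
    rw [bet_low hδ hp]
  · intro p
    simp only
    rw [hWper]
    unfold wP
    ext
    · simp
      field_simp
    · simp
  · intro p hp
    simp only
    rw [hWlow p hp, wP_uC]

end Pool.Agent.W853.DQ
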